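import Mathlib

/-!
Minimal, totally minimal, c-minimal and c-totally minimal topological groups.
-/

set_option autoImplicit false

namespace Pool.Agent.Lib.MP_35204b_gt

universe u

/-- A (Hausdorff) topological group `(G, τ)` is *minimal* if `G` carries no Hausdorff group
topology which is strictly coarser than `τ`. (In Mathlib `τ < σ` says that `σ` is strictly
coarser than `τ`.) -/
def IsMinimalGroup (G : Type u) [Group G] [τ : TopologicalSpace G] : Prop :=
  ¬ ∃ σ : TopologicalSpace G, @IsTopologicalGroup G σ _ ∧ @T2Space G σ ∧ τ < σ

/-- A topological group `G` is *totally minimal* if `G ⧸ N` with the quotient topology is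
minimal for every closed normal subgroup `N`. -/
def IsTotallyMinimalGroup (G : Type u) [Group G] [TopologicalSpace G] : Prop :=
  ∀ (N : Subgroup G) [N.Normal], IsClosed (N : Set G) → IsMinimalGroup (G ⧸ N)

/-- A topological group `G` is *c-minimal* if every closed subgroup, with the subspace
topology, is minimal. -/
def IsCMinimalGroup (G : Type u) [Group G] [TopologicalSpace G] : Prop :=
  ∀ H : Subgroup G, IsClosed (H : Set G) → IsMinimalGroup H

/-- A topological group `G` is *c-totally minimal* if every closed subgroup, with the subspace
topology, is totally minimal. -/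
def IsCTotallyMinimalGroup (G : Type u) [Group G] [TopologicalSpace G] : Prop :=
  ∀ H : Subgroup G, IsClosed (H : Set G) → IsTotallyMinimalGroup H

end Pool.Agent.Lib.MP_35204b_gt
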