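import Mathlib
import Pool.Agent.Lib.MP_35204b_gt.Defs

/-!
Stability of minimality and total minimality under proper homomorphisms to abelian groups.
-/

set_option autoImplicit false

open Topology Filter

namespace Pool.Agent.Lib.MP_35204b_gt

universe u v w

theorem isMinimalGroup_iff {G : Type u} [Group G] [τ : TopologicalSpace G] :
    IsMinimalGroup G ↔ ∀ σ : TopologicalSpace G, @IsTopologicalGroup G σ _ → @T2Space G σ →
      τ ≤ σ → σ = τ := by
  constructor
  · intro h σ h1 h2 h3
    by_contra hne
    exact h ⟨σ, h1, h2, lt_of_le_of_ne h3 (Ne.symm hne)⟩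
  · rintro h ⟨σ, h1, h2, h3⟩
    exact h3.ne (h σ h1 h2 h3.le).symm

/-- The topology pushed along a surjective homomorphism with closed kernel. -/
theorem exists_groupTopology_of_surjective {P : Type u} {Q : Type v} [Group P]
    [TopologicalSpace P] [IsTopologicalGroup P] [Group Q] (m : P →* Q)
    (hm : Function.Surjective m) (hker : IsClosed (m.ker : Set P)) :
    ∃ σ : TopologicalSpace Q, @IsTopologicalGroup Q σ _ ∧ @T2Space Q σ ∧
      @Continuous P Q _ σ m := by
  let e : P ⧸ m.ker ≃* Q := QuotientGroup.quotientKerEquivOfSurjective m hm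
  have : IsClosed (m.ker : Set P) := hker
  refine ⟨TopologicalSpace.induced e.symm inferInstance, ?_, ?_, ?_⟩
  · exact topologicalGroup_induced e.symm
  · let _ : TopologicalSpace Q := TopologicalSpace.induced e.symm inferInstance
    exact T2Space.of_injective_continuous (f := e.symm) e.symm.injective continuous_induced_dom
  · refine continuous_induced_rng.2 ?_
    have : (e.symm ∘ m : P → P ⧸ m.ker) = (QuotientGroup.mk : P → P ⧸ m.ker) := by
      funext x
      apply e.injective
      simp only [Function.comp, MulEquiv.apply_symm_apply]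
      rfl
    rw [this]
    exact QuotientGroup.continuous_mk

/-- Key lemma: if `f : G → Q` is a proper homomorphism to a minimal abelian group, then every
continuous isomorphism from `G` onto a Hausdorff topological group is a homeomorphism. -/
theorem continuous_symm_of_proper {G : Type u} {G' : Type v} {Q : Type w}
    [Group G] [TopologicalSpace G]
    [Group G'] [TopologicalSpace G'] [IsTopologicalGroup G'] [T2Space G']
    [CommGroup Q] [τ : TopologicalSpace Q] [IsTopologicalGroup Q]
    (hQ : IsMinimalGroup Q) (f : G →* Q) (hf : IsProperMap f)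
    (φ : G ≃* G') (hφ : Continuous φ) : Continuous φ.symm := by
  let m : Q × G' →* Q :=
    { toFun := fun p => p.1 * f (φ.symm p.2)
      map_one' := by simp
      map_mul' := by
        intro a b
        simp only [Prod.fst_mul, Prod.snd_mul, map_mul]
        exact mul_mul_mul_comm _ _ _ _ }
  have hm_apply : ∀ p : Q × G', m p = p.1 * f (φ.symm p.2) := fun p => rfl
  have hmsurj : Function.Surjective m := fun q => ⟨(q, 1), by simp [hm_apply]⟩
  have hker : IsClosed (m.ker : Set (Q × G')) := by
    rw [isClosed_iff_ultrafilter]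
    rintro ⟨q, g⟩ u hu hmem
    have hu1 : Tendsto Prod.fst (u : Filter (Q × G')) (𝓝 q) :=
      (continuous_fst.tendsto (q, g)).mono_left hu
    have hu2 : Tendsto Prod.snd (u : Filter (Q × G')) (𝓝 g) :=
      (continuous_snd.tendsto (q, g)).mono_left hu
    let u' : Ultrafilter G := u.map (fun p => φ.symm p.2)
    have h1 : Tendsto f (u' : Filter G) (𝓝 q⁻¹) := by
      have h2 : Tendsto (fun p : Q × G' => f (φ.symm p.2)) (u : Filter (Q × G')) (𝓝 q⁻¹) := by
        refine (hu1.inv).congr' ?_
        filter_upwards [hmem] with p hp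
        have : p.1 * f (φ.symm p.2) = 1 := hp
        exact (eq_inv_of_mul_eq_one_right this).symm
      exact h2
    obtain ⟨x, hx, hux⟩ := (isProperMap_iff_ultrafilter.1 hf).2 h1
    have h3 : Tendsto (fun p : Q × G' => φ (φ.symm p.2)) (u : Filter (Q × G')) (𝓝 (φ x)) :=
      (hφ.tendsto x).comp hux
    simp only [MulEquiv.apply_symm_apply] at h3
    have h4 : φ x = g := tendsto_nhds_unique h3 hu2
    change q * f (φ.symm g) = 1
    rw [← h4, MulEquiv.symm_apply_apply, hx, mul_inv_cancel]
  have hincl : Continuous (fun q : Q => (q, (1 : G'))) := continuous_id.prodMk continuous_const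
  obtain ⟨σ, hσ1, hσ2, hσ3⟩ := exists_groupTopology_of_surjective m hmsurj hker
  have hle : τ ≤ σ := by
    have : @Continuous Q Q τ σ (fun q => m (q, 1)) :=
      @Continuous.comp Q (Q × G') Q τ (@instTopologicalSpaceProd Q G' τ _) σ
        (fun q : Q => (q, (1 : G'))) m hσ3 hincl
    have h2 : (fun q => m (q, 1)) = (id : Q → Q) := by
      funext q; simp [hm_apply]
    rw [h2] at this
    exact continuous_id_iff_le.1 this
  have hσ : σ = τ := (@isMinimalGroup_iff Q _ τ).1 hQ σ hσ1 hσ2 hle
  subst hσ
  have hcont : Continuous (fun g' : G' => f (φ.symm g')) := by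
    have : Continuous (fun g' : G' => m (1, g')) :=
      hσ3.comp (continuous_const.prodMk continuous_id)
    simpa [hm_apply] using this
  rw [continuous_iff_ultrafilter]
  intro g u hu
  let u' : Ultrafilter G := u.map φ.symm
  have h1 : Tendsto f (u' : Filter G) (𝓝 (f (φ.symm g))) := (hcont.tendsto g).mono_left hu
  obtain ⟨x, _, hux⟩ := (isProperMap_iff_ultrafilter.1 hf).2 h1
  have h3 : Tendsto (fun p : G' => φ (φ.symm p)) (u : Filter G') (𝓝 (φ x)) :=
    (hφ.tendsto x).comp hux
  simp only [MulEquiv.apply_symm_apply] at h3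
  have h4 : φ x = g := tendsto_nhds_unique h3 hu
  have h5 : φ.symm g = x := by rw [← h4, MulEquiv.symm_apply_apply]
  rw [h5]
  exact hux

/-- A topological group with a proper homomorphism to a minimal abelian group is minimal. -/
theorem isMinimalGroup_of_proper {G : Type u} {Q : Type v} [Group G] [τ : TopologicalSpace G]
    [CommGroup Q] [TopologicalSpace Q] [IsTopologicalGroup Q]
    (hQ : IsMinimalGroup Q) (f : G →* Q) (hf : IsProperMap f) : IsMinimalGroup G := by
  rw [isMinimalGroup_iff]
  intro σ h1 h2 h3
  refine le_antisymm ?_ h3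
  have hφ : @Continuous G G τ σ (MulEquiv.refl G) := continuous_id_iff_le.2 h3
  have := @continuous_symm_of_proper G G Q _ τ _ σ h1 h2 _ _ _ hQ f hf (MulEquiv.refl G) hφ
  exact continuous_id_iff_le.1 this

/-- The first projection of a closed subgroup of `A × K`, with `K` compact, is proper. -/
theorem isProperMap_fst_subgroup {A : Type u} {K : Type v} [Group A] [TopologicalSpace A]
    [Group K] [TopologicalSpace K] [CompactSpace K] (H : Subgroup (A × K))
    (hH : IsClosed (H : Set (A × K))) :
    IsProperMap ((MonoidHom.fst A K).comp H.subtype) := by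
  have h1 : IsProperMap (H.subtype : H → A × K) := hH.isClosedEmbedding_subtypeVal.isProperMap
  exact (isProperMap_fst_of_compactSpace (X := A) (Y := K)).comp h1

theorem isCMinimalGroup_prod {A : Type u} {K : Type v} [CommGroup A] [TopologicalSpace A]
    [IsTopologicalGroup A] [Group K] [TopologicalSpace K]
    [CompactSpace K] (hA : IsMinimalGroup A) : IsCMinimalGroup (A × K) := fun H hH =>
  isMinimalGroup_of_proper hA _ (isProperMap_fst_subgroup H hH)

/-- Given a proper homomorphism `f : G → Q` of topological groups and closed normal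
subgroups `N` of `G` and `f(N)` of `Q`, the induced homomorphism `G ⧸ N → Q ⧸ f(N)` is proper. -/
theorem isProperMap_quotientMap {G : Type u} {Q : Type v} [Group G] [TopologicalSpace G]
    [IsTopologicalGroup G] [CommGroup Q] [TopologicalSpace Q] [IsTopologicalGroup Q]
    (f : G →* Q) (hf : IsProperMap f) (N : Subgroup G) [N.Normal] (hN : IsClosed (N : Set G))
    [T2Space Q] :
    IsProperMap (QuotientGroup.map N (N.map f) f (Subgroup.le_comap_map f N)) := by
  set M : Subgroup Q := N.map f with hM
  set g : G ⧸ N →* Q ⧸ M := QuotientGroup.map N M f (Subgroup.le_comap_map f N) with hg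
  have hMcl : IsClosed (M : Set Q) := by
    have := hf.isClosedMap _ hN
    simpa [hM] using this
  have := hMcl
  have hgmk : ∀ x : G, g (x : G ⧸ N) = ((f x : Q) : Q ⧸ M) := fun x => rfl
  have hgcont : Continuous g := by
    rw [(QuotientGroup.isQuotientMap_mk N).continuous_iff]
    exact QuotientGroup.continuous_mk.comp hf.continuous
  rw [isProperMap_iff_isClosedMap_and_compact_fibers]
  refine ⟨hgcont, ?_, ?_⟩
  · intro C hC
    rw [← (QuotientGroup.isQuotientMap_mk M).isClosed_preimage]
    have hC' : IsClosed ((QuotientGroup.mk : G → G ⧸ N) ⁻¹' C) :=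
      hC.preimage QuotientGroup.continuous_mk
    have : (QuotientGroup.mk : Q → Q ⧸ M) ⁻¹' (g '' C) =
        f '' ((QuotientGroup.mk : G → G ⧸ N) ⁻¹' C) := by
      ext q
      constructor
      · rintro ⟨c, hc, hcq⟩
        obtain ⟨x, rfl⟩ := QuotientGroup.mk_surjective c
        rw [hgmk] at hcq
        have h1 : (f x)⁻¹ * q ∈ M := QuotientGroup.eq.1 hcq
        obtain ⟨n, hn, hnq⟩ := h1
        refine ⟨x * n, ?_, ?_⟩
        · change ((x * n : G) : G ⧸ N) ∈ C
          rwa [QuotientGroup.mk_mul_of_mem x hn]
        · rw [map_mul, hnq, mul_inv_cancel_left]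
      · rintro ⟨x, hx, rfl⟩
        exact ⟨(x : G ⧸ N), hx, hgmk x⟩
    rw [this]
    exact hf.isClosedMap _ hC'
  · intro y
    have hker : IsCompact (g ⁻¹' {1}) := by
      have h1 : g ⁻¹' {1} = (QuotientGroup.mk : G → G ⧸ N) '' (f ⁻¹' {1}) := by
        ext c
        constructor
        · intro hc
          obtain ⟨x, rfl⟩ := QuotientGroup.mk_surjective c
          have hc' : ((f x : Q) : Q ⧸ M) = 1 := by
            rw [← hgmk]; exact hc
          have h2 : f x ∈ M := (QuotientGroup.eq_one_iff _).1 hc'
          obtain ⟨n, hn, hnx⟩ := h2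
          refine ⟨x * n⁻¹, ?_, ?_⟩
          · change f (x * n⁻¹) = 1
            rw [map_mul, map_inv, hnx, mul_inv_cancel]
          · exact QuotientGroup.mk_mul_of_mem x (N.inv_mem hn)
        · rintro ⟨x, hx, rfl⟩
          change g (x : G ⧸ N) = 1
          rw [hgmk]
          have : f x = 1 := hx
          rw [this]; rfl
      rw [h1]
      exact (hf.isCompact_preimage isCompact_singleton).image QuotientGroup.continuous_mk
    by_cases hy : ∃ c, g c = y
    · obtain ⟨c, rfl⟩ := hy
      have h2 : g ⁻¹' {g c} = (fun z => c * z) '' (g ⁻¹' {1}) := by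
        ext z
        constructor
        · intro hz
          have hz' : g z = g c := hz
          refine ⟨c⁻¹ * z, ?_, ?_⟩
          · change g (c⁻¹ * z) = 1
            rw [map_mul, map_inv, hz', inv_mul_cancel]
          · simp
        · rintro ⟨w, hw, rfl⟩
          have hw' : g w = 1 := hw
          change g (c * w) = g c
          rw [map_mul, hw', mul_one]
      rw [h2]
      exact hker.image (continuous_const_mul c)
    · have h3 : g ⁻¹' {y} = ∅ := by
        ext z
        simp only [Set.mem_preimage, Set.mem_singleton_iff, Set.mem_empty_iff_false, iff_false]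
        exact fun hz => hy ⟨z, hz⟩
      rw [h3]
      exact isCompact_empty

theorem isTotallyMinimalGroup_of_proper {G : Type u} {Q : Type v} [Group G]
    [TopologicalSpace G] [IsTopologicalGroup G] [CommGroup Q] [TopologicalSpace Q]
    [IsTopologicalGroup Q] [T2Space Q] (hQ : IsTotallyMinimalGroup Q) (f : G →* Q)
    (hf : IsProperMap f) : IsTotallyMinimalGroup G := by
  intro N _ hN
  have hMcl : IsClosed ((N.map f : Subgroup Q) : Set Q) := by
    have := hf.isClosedMap _ hN
    simpa using this
  exact isMinimalGroup_of_proper (hQ (N.map f) hMcl) _ (isProperMap_quotientMap f hf N hN)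

theorem isCTotallyMinimalGroup_prod {A : Type u} {K : Type v} [CommGroup A]
    [TopologicalSpace A] [IsTopologicalGroup A] [T2Space A] [Group K] [TopologicalSpace K]
    [IsTopologicalGroup K] [CompactSpace K] (hA : IsTotallyMinimalGroup A) :
    IsCTotallyMinimalGroup (A × K) := fun H hH =>
  isTotallyMinimalGroup_of_proper hA _ (isProperMap_fst_subgroup H hH)

end Pool.Agent.Lib.MP_35204b_gt
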