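import Pool.Agent.Lib.MP_35204b_gt.Basic

/-!
Sanity checks on the definitions of minimality: compact Hausdorff groups are minimal and totally
minimal, c-minimal groups are minimal, totally minimal groups are minimal, and the discrete group
of integers is not minimal.
-/

set_option autoImplicit false

open Topology Filter

namespace Pool.Agent.Lib.MP_35204b_gt

universe u

/-- A group is minimal iff every continuous isomorphism onto a Hausdorff topological group is a
homeomorphism. -/
theorem isMinimalGroup_iff_forall {G : Type u} [Group G] [τ : TopologicalSpace G] :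
    IsMinimalGroup G ↔ ∀ (G' : Type u) [Group G'] [TopologicalSpace G'] [IsTopologicalGroup G']
      [T2Space G'] (φ : G ≃* G'), Continuous φ → Continuous φ.symm := by
  rw [isMinimalGroup_iff]
  constructor
  · intro h G' _ τ' _ _ φ hφ
    have k1 := topologicalGroup_induced (G := G') (H := G) φ
    have k2 : @T2Space G (TopologicalSpace.induced φ τ') :=
      @T2Space.of_injective_continuous G G' (TopologicalSpace.induced φ τ') τ' _ φ
        φ.injective continuous_induced_dom
    have k3 := h _ k1 k2 (continuous_iff_le_induced.1 hφ)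
    rw [← k3]
    refine continuous_induced_rng.2 ?_
    have : ((φ : G → G') ∘ (φ.symm : G' → G)) = id := by funext x; simp
    rw [this]
    exact continuous_id
  · intro h σ h1 h2 h3
    refine le_antisymm ?_ h3
    have := @h G _ σ h1 h2 (MulEquiv.refl G) (continuous_id_iff_le.2 h3)
    exact continuous_id_iff_le.1 this

theorem IsMinimalGroup.of_compact {G : Type u} [Group G] [TopologicalSpace G] [CompactSpace G] :
    IsMinimalGroup G := by
  rw [isMinimalGroup_iff_forall]
  intro G' _ _ _ _ φ hφ
  exact (hφ.homeoOfEquivCompactToT2 (f := φ.toEquiv)).symm.continuous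

theorem IsTotallyMinimalGroup.of_compact {G : Type u} [Group G] [TopologicalSpace G]
    [CompactSpace G] : IsTotallyMinimalGroup G := fun _ _ _ => IsMinimalGroup.of_compact

/-- Minimality is invariant under topological isomorphism. -/
theorem IsMinimalGroup.congr {G H : Type u} [Group G] [TopologicalSpace G] [Group H]
    [TopologicalSpace H] (e : G ≃ₜ* H) (h : IsMinimalGroup G) : IsMinimalGroup H := by
  rw [isMinimalGroup_iff_forall] at h ⊢
  intro G' _ _ _ _ φ hφ
  have := h G' (e.toMulEquiv.trans φ) (hφ.comp e.continuous)
  have h2 : (φ.symm : G' → H) = (e : G → H) ∘ ((e.toMulEquiv.trans φ).symm : G' → G) := by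
    funext x
    simp
  rw [h2]
  exact e.continuous.comp this

theorem IsCMinimalGroup.isMinimalGroup {G : Type u} [Group G] [TopologicalSpace G]
    (h : IsCMinimalGroup G) : IsMinimalGroup G := by
  have h1 := h ⊤ (by simp)
  let e : (⊤ : Subgroup G) ≃ₜ* G :=
    { Subgroup.topEquiv with
      continuous_toFun := continuous_subtype_val
      continuous_invFun := Continuous.subtype_mk continuous_id _ }
  exact h1.congr e

theorem IsTotallyMinimalGroup.isMinimalGroup {G : Type u} [Group G] [TopologicalSpace G]
    [IsTopologicalGroup G] [T2Space G] (h : IsTotallyMinimalGroup G) : IsMinimalGroup G := by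
  have h1 := h ⊥ (by simp)
  let e : (G ⧸ (⊥ : Subgroup G)) ≃ₜ* G :=
    { QuotientGroup.quotientBot with
      continuous_toFun := by
        rw [(QuotientGroup.isQuotientMap_mk (⊥ : Subgroup G)).continuous_iff]
        exact continuous_id
      continuous_invFun := QuotientGroup.continuous_mk }
  exact h1.congr e

/-- The discrete infinite cyclic group is not minimal. -/
theorem not_isMinimalGroup_int [τ : TopologicalSpace (Multiplicative ℤ)]
    [DiscreteTopology (Multiplicative ℤ)] : ¬ IsMinimalGroup (Multiplicative ℤ) := by
  intro h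
  rw [isMinimalGroup_iff_forall] at h
  let f : Multiplicative ℤ →* Multiplicative ℤ_[2] :=
    AddMonoidHom.toMultiplicative (Int.castAddHom ℤ_[2])
  have hf : Function.Injective f := by
    intro a b hab
    have : ((Multiplicative.toAdd a : ℤ) : ℤ_[2]) = ((Multiplicative.toAdd b : ℤ) : ℤ_[2]) := hab
    exact Multiplicative.toAdd.injective (Int.cast_injective this)
  let e : Multiplicative ℤ ≃* f.range := MonoidHom.ofInjective hf
  have hcont := h f.range e continuous_of_discreteTopology
  -- the sequence `2 ^ n` tends to `0` in the `2`-adic topology but not in the discrete one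
  have hlim : Tendsto (fun n : ℕ => ((2 : ℤ_[2]) ^ n)) atTop (𝓝 0) := by
    apply tendsto_pow_atTop_nhds_zero_of_norm_lt_one
    have : ‖((2 : ℕ) : ℤ_[2])‖ < 1 := by
      rw [PadicInt.norm_p]; norm_num
    simpa using this
  have hlim2 : Tendsto (fun n : ℕ => e (Multiplicative.ofAdd ((2 : ℤ) ^ n))) atTop (𝓝 1) := by
    rw [tendsto_subtype_rng]
    have h5 : (fun n : ℕ => ((e (Multiplicative.ofAdd ((2 : ℤ) ^ n)) : f.range) :
        Multiplicative ℤ_[2])) = fun n : ℕ => Multiplicative.ofAdd ((2 : ℤ_[2]) ^ n) := by
      funext n
      change Multiplicative.ofAdd ((((2 : ℤ) ^ n : ℤ)) : ℤ_[2]) = _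
      push_cast
      rfl
    rw [h5]
    exact hlim
  have hlim3 := (hcont.tendsto 1).comp hlim2
  have h6 : ((e.symm : f.range → Multiplicative ℤ) ∘
      fun n : ℕ => e (Multiplicative.ofAdd ((2 : ℤ) ^ n))) =
      fun n : ℕ => Multiplicative.ofAdd ((2 : ℤ) ^ n) := by
    funext n; simp
  rw [h6, map_one, nhds_discrete, tendsto_pure] at hlim3
  obtain ⟨n, hn⟩ := hlim3.exists
  have : ((2 : ℤ) ^ n) = 0 := hn
  exact absurd this (by positivity)

end Pool.Agent.Lib.MP_35204b_gt
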